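import Pool.Agent.P8H98.FM.Stm
import Pool.Agent.K7.H89.GMC.M1
import Pool.Agent.R923.SE.Fin
import Pool.Agent.R923.SE.Unif
import Pool.Agent.R923.SE.Sph
import Pool.Agent.R923.SE.Img
import Pool.Agent.R923.SE.Hol
import Pool.Agent.R923.SE.MC
import Pool.Agent.R923.SE.ZD
import Pool.Agent.R923.SE.N
import Pool.Agent.R923.SE.Row
import Pool.Agent.R923.SE.Pos
import Pool.Agent.R923.SE.Base
import Pool.Agent.R923.SE.Ser
import Pool.Agent.R923.SE.Lag
import Pool.Agent.R923.SE.Mom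
import Pool.Agent.R923.SE.PD
import Pool.Agent.R923.SE.Bar
import Pool.Agent.R923.SE.BG
import Pool.Agent.R923.SE.Int

/-!
Project FM (helper98), package TWO (helper67): two opposite charges.
-/

set_option autoImplicit false

open MeasureTheory Complex Filter Topology
open scoped ENNReal NNReal ComplexConjugate

namespace Pool.Agent.P8H67.FM

open Pool.Agent.R923.SE Pool.Agent.K7.H95.GMC Pool.Agent.K7.H89.GMC Pool.Agent.P8H98.FM

noncomputable section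

/-! ### What the library gives -/

lemma lib_facts : S_ROT ∧ S_NUL ∧ S_UNIF ∧ S_BAR := by
  have hDEN : S_DEN := s_DEN
  have hROT : S_ROT := s_ROT
  have hUL : S_UL := s_UL
  have hUR : S_UR := s_UR
  have hTR : S_TR := s_TR
  have hNUL : S_NUL := s_NUL hUR
  have hN : S_N := s_N hDEN hUR
  have hROW : S_ROW := s_ROW hN hNUL hDEN
  have hCOL : S_COL := s_COL hN hNUL hDEN hTR
  have hPOL : S_POL := s_POL hN hNUL hDEN
  have hZD : S_ZD := s_ZD hUR hPOL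
  have hLAG : S_LAG := s_LAG hROW hUL hPOL
  have hMC : S_MC := s_MC hCOL hPOL
  have hMOM : S_MOM := s_MOM hZD hLAG hMC hPOL hROW
  have hSER : S_SER := s_SER hN hROW hDEN hNUL hROT
  have hSYM : S_SYM := s_SYM hROT
  have hPD : S_PD := s_PD hROT
  have hIMG : S_IMG := s_IMG hSER hMOM s_POS hPD
  have hHOL : S_HOL := s_HOL hN hROT
  have hBAR : S_BAR := s_BAR
  exact ⟨hROT, hNUL, s_UNIF hIMG hHOL hSYM hBAR, hBAR⟩

/-! ### Geometry -/

lemma nn2_smul (c : ℂ) (v : Om) : nn2 (c • v) = ‖c‖ ^ 2 * nn2 v := by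
  simp only [nn2, Prod.smul_fst, Prod.smul_snd, smul_eq_mul, norm_mul]
  ring

lemma hp_smul_right (c : ℂ) (v w : Om) : hp v (c • w) = conj c * hp v w := by
  simp only [hp, Prod.smul_fst, Prod.smul_snd, smul_eq_mul, map_mul]
  ring

lemma hp_smul_left (c : ℂ) (v w : Om) : hp (c • v) w = c * hp v w := by
  simp only [hp, Prod.smul_fst, Prod.smul_snd, smul_eq_mul]
  ring

lemma d2_smul_right {c : ℂ} (hc : c ≠ 0) (v w : Om) : d2 v (c • w) = d2 v w := by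
  have h1 : ‖c‖ ^ 2 ≠ 0 := by simpa using hc
  rw [d2, d2, nn2_smul, hp_smul_right, norm_mul, RCLike.norm_conj, mul_pow]
  congr 1
  rw [show nn2 v * (‖c‖ ^ 2 * nn2 w) = ‖c‖ ^ 2 * (nn2 v * nn2 w) by ring,
    mul_div_mul_left _ _ h1]

lemma d2_smul_left {c : ℂ} (hc : c ≠ 0) (v w : Om) : d2 (c • v) w = d2 v w := by
  have h1 : ‖c‖ ^ 2 ≠ 0 := by simpa using hc
  rw [d2, d2, nn2_smul, hp_smul_left, norm_mul, mul_pow]
  congr 1
  rw [show ‖c‖ ^ 2 * nn2 v * nn2 w = ‖c‖ ^ 2 * (nn2 v * nn2 w) by ring,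
    mul_div_mul_left _ _ h1]

lemma nn2_sp (u : S2) : nn2 (sp u) = 1 := by
  have := s_GEO.2.2.1 u
  rw [nn2, sp, norm_neg]
  linarith

lemma hp_sp (u v : S2) : hp (sp u) (sp v) = sa u * conj (sa v) + sb u * conj (sb v) := by
  simp only [hp, sp, map_neg]
  ring

lemma d2_sp (u v : S2) : d2 (sp u) (sp v) =
    1 - ‖sa u * conj (sa v) + sb u * conj (sb v)‖ ^ 2 := by
  rw [d2, nn2_sp, nn2_sp, hp_sp]
  simp

lemma d2_sp_self (u : S2) : d2 (sp u) (sp u) = 0 := by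
  rw [d2_sp]
  have h := s_GEO.2.2.2.1 u u
  rw [h]
  simp

/-- every direction comes from a point of the sphere -/
lemma exists_sp {v : Om} (hv : nn2 v ≠ 0) : ∃ (u : S2) (c : ℂ), c ≠ 0 ∧ v = c • sp u := by
  by_cases h2 : v.2 = 0
  · have h1 : v.1 ≠ 0 := by
      intro h1
      apply hv
      simp [nn2, h1, h2]
    have hm : (!₂[0, 0, 1] : R3) ∈ Metric.sphere (0 : R3) 1 := by
      rw [mem_sphere_zero_iff_norm, EuclideanSpace.norm_eq, Real.sqrt_eq_one]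
      simp [Fin.sum_univ_three]
    refine ⟨⟨_, hm⟩, v.1, h1, ?_⟩
    have e1 : sb (⟨_, hm⟩ : S2) = -1 := by simp [sb]
    have e2 : sa (⟨_, hm⟩ : S2) = 0 := by simp [sa]
    ext
    · simp [sp, e1]
    · simp [sp, e2, h2]
  · set w : ℂ := v.1 / v.2 with hw
    set u : S2 := Tinv w with hu
    have h3 := s_GEO.2.2.2.2 u w
    have h4 : sa u * w + sb u = 0 := by
      rw [hu, sub_self, norm_zero] at h3
      have h5 : (1 + ‖w‖ ^ 2) ≠ 0 := by positivity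
      have h6 : ‖sa (Tinv w) * w + sb (Tinv w)‖ ^ 2 = 0 := by
        have := h3.symm
        rw [div_eq_iff h5] at this
        rw [this]
        norm_num
      simpa using h6
    have h5 : sb u = -(sa u * w) := by linear_combination h4
    have h6 : sa u ≠ 0 := by
      intro h6
      have h7 := s_GEO.2.2.1 u
      rw [h5, h6] at h7
      norm_num at h7
    refine ⟨u, v.2 / sa u, div_ne_zero h2 h6, ?_⟩
    ext
    · simp only [sp, Prod.smul_mk, smul_eq_mul, h5, hw]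
      field_simp
    · simp only [sp, Prod.smul_mk, smul_eq_mul]
      field_simp

/-! ### The integrand -/

lemma lg_eq {n : ℕ} {x : Mt n n × Mt n n} (hx : dt x.2 ≠ 0) {u : S2}
    (hu : dt (sa u • x.1 + sb u • x.2) ≠ 0) :
    Lg x u = Real.log ‖dt (sa u • x.1 + sb u • x.2)‖ - Real.log (Y2 x) / 2 := by
  have h1 : ∀ w ∈ ev x, u ≠ Tinv w := fun w hw h => hu (comb_zero hx hw h)
  have h2 := wt_eq (γ := 1) h1
  have h3 := comb_eq hx (1 / 2) u
  have hY := Y2_pos hx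
  have hY2 : 0 < Y2 x ^ (1 / 2 : ℝ) := Real.rpow_pos_of_pos hY _
  rw [← h2, show (2 * (1 / 2 : ℝ)) = 1 by norm_num, Real.rpow_one, wt, one_mul] at h3
  have h4 := congrArg Real.log h3
  rw [Real.log_mul hY2.ne' (Real.exp_pos _).ne', Real.log_exp, Real.log_rpow hY] at h4
  linarith

lemma fp_of {n : ℕ} (p c : ℂ) (hc : ‖c‖ = 1) (A : Mt n n) : fp p (c • A) = fp p A := by
  unfold fp
  rw [Sph.dt_smul, norm_mul, norm_pow, hc, one_pow, one_mul]

/-- the exponential moments for two opposite charges -/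
lemma moment_eq (hROT : S_ROT) (hNUL : S_NUL) (n : ℕ) (u v : S2) (a : ℂ) :
    ∫ x : Mt n n × Mt n n, cexp (2 * a * ((Lg x u : ℝ) : ℂ) + -(2 * a) * ((Lg x v : ℝ) : ℂ)) ∂gg n =
      Psi n (1 - d2 (sp u) (sp v)) a (-a) := by
  set α0 : ℂ := sa u with hα0
  set β0 : ℂ := sb u with hβ0
  set α1 : ℂ := sa v with hα1
  set β1 : ℂ := sb v with hβ1
  have hN0 : ‖α0‖ ^ 2 + ‖β0‖ ^ 2 = 1 := s_GEO.2.2.1 u
  have hN1 : ‖α1‖ ^ 2 + ‖β1‖ ^ 2 = 1 := s_GEO.2.2.1 v
  set p : ℂ := α0 * conj α1 + β0 * conj β1 with hp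
  set q : ℂ := α0 * (-β1) + β0 * α1 with hq
  have hr : d2 (sp u) (sp v) = 1 - ‖p‖ ^ 2 := d2_sp u v
  have hc1 : α1 * conj α1 + β1 * conj β1 = 1 := by
    rw [Complex.mul_conj, Complex.mul_conj, Complex.normSq_eq_norm_sq, Complex.normSq_eq_norm_sq,
      ← Complex.ofReal_add, hN1, Complex.ofReal_one]
  have hc0 : α0 * conj α0 + β0 * conj β0 = 1 := by
    rw [Complex.mul_conj, Complex.mul_conj, Complex.normSq_eq_norm_sq, Complex.normSq_eq_norm_sq,
      ← Complex.ofReal_add, hN0, Complex.ofReal_one]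
  have hpq : ‖p‖ ^ 2 + ‖q‖ ^ 2 = 1 := by
    have h1 : ((‖p‖ ^ 2 + ‖q‖ ^ 2 : ℝ) : ℂ) = 1 := by
      rw [Complex.ofReal_add, ← Complex.normSq_eq_norm_sq, ← Complex.normSq_eq_norm_sq,
        ← Complex.mul_conj, ← Complex.mul_conj, hp, hq]
      simp only [map_add, map_mul, map_neg, Complex.conj_conj]
      linear_combination (α1 * conj α1 + β1 * conj β1) * hc0 + hc1
    exact_mod_cast h1
  have hr1 : 1 - d2 (sp u) (sp v) = ‖p‖ ^ 2 := by rw [hr]; ring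
  have hr2 : 1 - (1 - d2 (sp u) (sp v)) = ‖q‖ ^ 2 := by rw [hr]; linarith
  have hs1 : √(1 - d2 (sp u) (sp v)) = ‖p‖ := by rw [hr1]; exact Real.sqrt_sq (norm_nonneg _)
  have hs2 : √(1 - (1 - d2 (sp u) (sp v))) = ‖q‖ := by
    rw [hr2]; exact Real.sqrt_sq (norm_nonneg _)
  -- phases
  set e : ℂ := cexp (p.arg * I) with he
  set f : ℂ := cexp (q.arg * I) with hf
  have hen : ‖e‖ = 1 := Complex.norm_exp_ofReal_mul_I _
  have hfn : ‖f‖ = 1 := Complex.norm_exp_ofReal_mul_I _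
  have he0 : e ≠ 0 := by rw [← norm_ne_zero_iff, hen]; norm_num
  have hpe : p = (‖p‖ : ℂ) * e := (Complex.norm_mul_exp_arg_mul_I p).symm
  have hqf : q = (‖q‖ : ℂ) * f := (Complex.norm_mul_exp_arg_mul_I q).symm
  set k : ℂ := f * e⁻¹ with hk
  have hkn : ‖k‖ = 1 := by rw [hk, norm_mul, norm_inv, hen, hfn]; norm_num
  have hT := hROT n n (k * (-conj β1)) (k * conj α1) α1 β1
    (by rw [norm_mul k, norm_mul k, hkn, norm_neg, RCLike.norm_conj, RCLike.norm_conj]; linarith) hN1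
    (by ring)
  set r : ℝ := 1 - d2 (sp u) (sp v) with hrdef
  have hF := Sph.measurable_int n r a (-a)
  have hPsi : Psi n r a (-a) = ∫ x : Mt n n × Mt n n,
      fp a (((√r : ℝ) : ℂ) • (α1 • x.1 + β1 • x.2) + ((√(1 - r) : ℝ) : ℂ) •
        ((k * (-conj β1)) • x.1 + (k * conj α1) • x.2)) * fp (-a) (α1 • x.1 + β1 • x.2) ∂gg n := by
    unfold Psi gg
    have := integral_map (μ := (gau n n).prod (gau n n)) hT.measurable.aemeasurable
      hF.aestronglyMeasurable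
    rw [hT.map_eq] at this
    rw [this]
  rw [hPsi]
  have e1 : ∀ᵐ x ∂gg n, dt (α0 • x.1 + β0 • x.2) ≠ 0 := Sph.ae_mix hNUL hROT n α0 β0 hN0
  have e2 : ∀ᵐ x ∂gg n, dt (α1 • x.1 + β1 • x.2) ≠ 0 := Sph.ae_mix hNUL hROT n α1 β1 hN1
  have e3 : ∀ᵐ x ∂gg n, dt x.2 ≠ 0 := by
    have : ∀ᵐ y ∂(gau n n).prod (gau n n), dt y.2 ≠ 0 :=
      Measure.quasiMeasurePreserving_snd.ae (hNUL n)
    exact this
  refine integral_congr_ae ?_
  filter_upwards [e1, e2, e3] with x hx0 hx1 hx2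
  have hcomb : ((√r : ℝ) : ℂ) • (α1 • x.1 + β1 • x.2) + ((√(1 - r) : ℝ) : ℂ) •
        ((k * (-conj β1)) • x.1 + (k * conj α1) • x.2) = e⁻¹ • (α0 • x.1 + β0 • x.2) := by
    rw [hs1, hs2]
    have h1 : (‖p‖ : ℂ) = p * e⁻¹ := by
      conv_rhs => rw [hpe]
      rw [mul_assoc, mul_inv_cancel₀ he0, mul_one]
    have h2 : (‖q‖ : ℂ) * k = q * e⁻¹ := by
      rw [hk]
      conv_rhs => rw [hqf]
      ring
    have h3 : (‖p‖ : ℂ) * α1 + (‖q‖ : ℂ) * (k * (-conj β1)) = e⁻¹ * α0 := by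
      rw [← mul_assoc, h2, h1, hp, hq]
      linear_combination (e⁻¹ * α0) * hc1
    have h4 : (‖p‖ : ℂ) * β1 + (‖q‖ : ℂ) * (k * conj α1) = e⁻¹ * β0 := by
      rw [← mul_assoc, h2, h1, hp, hq]
      linear_combination (e⁻¹ * β0) * hc1
    rw [smul_add, smul_add, smul_add, smul_smul, smul_smul, smul_smul, smul_smul, smul_smul,
      smul_smul, ← h3, ← h4, add_smul, add_smul]
    abel
  rw [hcomb, fp_of a e⁻¹ (by rw [norm_inv, hen, inv_one]), lg_eq hx2 hx0, lg_eq hx2 hx1]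
  unfold fp
  rw [← Complex.exp_add]
  congr 1
  push_cast
  ring

/-! ### The Toeplitz determinant -/

lemma dd_eq_psi (hL : S_LNK) (n : ℕ) {v w : Om} (hv : nn2 v ≠ 0) (hw : nn2 w ≠ 0)
    (hvw : 0 < d2 v w) {a : ℂ} (ha : |a.re| < 1) :
    DD n (fun u => ((d2 u v : ℝ) : ℂ) ^ a * ((d2 u w : ℝ) : ℂ) ^ (-a)) =
      Psi n (1 - d2 v w) a (-a) := by
  obtain ⟨hROT, hNUL, -, -⟩ := lib_facts
  obtain ⟨P, c, hc, rfl⟩ := exists_sp hv
  obtain ⟨Q, c', hc', rfl⟩ := exists_sp hw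
  simp only [d2_smul_right hc, d2_smul_right hc', d2_smul_left hc] at hvw ⊢
  have hPQ : P ≠ Q := by
    rintro rfl
    rw [d2_sp_self] at hvw
    exact lt_irrefl _ hvw
  rw [← moment_eq hROT hNUL]
  rw [abs_lt] at ha
  have h := (hL n 2 ![P, Q] ![2 * a, -(2 * a)] ?_ ?_).2
  · simp only [Fin.sum_univ_two, Fin.prod_univ_two, Matrix.cons_val_zero, Matrix.cons_val_one] at h
    rw [h]
    congr 1
    funext u
    rw [show 2 * a / 2 = a by ring, show -(2 * a) / 2 = -a by ring]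
  · intro i j hij
    fin_cases i <;> fin_cases j <;> simp_all
  · intro i
    fin_cases i
    · simp
      linarith
    · simp
      linarith

lemma NN_ne (n : ℕ) {a : ℂ} (ha : -1 < a.re) : NN n a ≠ 0 := by
  unfold NN
  rw [Finset.prod_ne_zero_iff]
  intro j _
  refine div_ne_zero ?_ ?_
  · refine Complex.Gamma_ne_zero_of_re_pos ?_
    simp
    have : (0 : ℝ) ≤ j := Nat.cast_nonneg j
    linarith
  · refine Complex.Gamma_ne_zero_of_re_pos ?_
    simp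
    have : (0 : ℝ) ≤ j := Nat.cast_nonneg j
    linarith

/-- TWO -/
theorem two (hL : S_LNK) (hO : S_ONE) : S_TWO := by
  intro v w hv hw hvw a ha
  obtain ⟨hROT, hNUL, hUNIF, hBAR⟩ := lib_facts
  have ha' := abs_lt.1 ha
  have ha1 : -1 < a.re := ha'.1
  have ha2 : -1 < (-a).re := by rw [Complex.neg_re]; linarith
  obtain ⟨o1, g1, l1⟩ := hO a ha1
  obtain ⟨o2, g2, l2⟩ := hO (-a) ha2
  set r : ℝ := 1 - d2 v w with hr
  have hd : 0 ≤ d2 v w ∧ d2 v w ≤ 1 := by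
    obtain ⟨P, c, hc, rfl⟩ := exists_sp hv
    obtain ⟨Q, c', hc', rfl⟩ := exists_sp hw
    rw [d2_smul_left hc, d2_smul_right hc']
    have h1 := s_GEO.2.2.2.1 Q P
    have h2 := d2_sp P Q
    have h3 := dist_le Q P
    constructor
    · rw [h2, h1]
      have : 0 ≤ ‖(Q : R3) - (P : R3)‖ ^ 2 / 4 := by positivity
      linarith
    · rw [h2]
      have : 0 ≤ ‖sa P * conj (sa Q) + sb P * conj (sb Q)‖ ^ 2 := by positivity
      linarith
  have hr0 : 0 ≤ r := by rw [hr]; linarith [hd.2]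
  have hr1 : r < 1 := by rw [hr]; linarith
  -- the numerator
  have hU := hUNIF {a} r isCompact_singleton (by simpa using ha) hr0 hr1
  have hU1 := hU.tendsto_at (x := (r, a)) ⟨⟨hr0, le_refl r⟩, rfl⟩
  simp only [Pi.one_apply] at hU1
  -- moments
  have hB := (hBAR {a} isCompact_singleton (by simpa using ha)).2
  have hB1 := hB.tendsto_at (x := a) rfl
  simp only [Pi.one_apply] at hB1
  have hdr : 1 - r = d2 v w := by rw [hr]; ring
  rw [hdr] at hU1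
  have hd0 : ((d2 v w : ℝ) : ℂ) ≠ 0 := by exact_mod_cast hvw.ne'
  have hlim : cexp (a ^ 2 * ((1 + Real.log (d2 v w) : ℝ) : ℂ)) =
      1 * 1 * (((d2 v w : ℝ) : ℂ) ^ (a ^ 2) * cexp (a ^ 2)) / (1 * 1) := by
    rw [Complex.cpow_def_of_ne_zero hd0, ← Complex.exp_add, ← Complex.ofReal_log hd.1]
    simp only [one_mul, div_one]
    congr 1
    push_cast
    ring
  rw [hlim]
  have hlim2 := ((hU1.mul hB1).mul_const
    (((d2 v w : ℝ) : ℂ) ^ (a ^ 2) * cexp (a ^ 2))).div (l1.mul l2) (by norm_num)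
  refine hlim2.congr' ?_
  filter_upwards [eventually_ge_atTop 1] with n hn
  rw [dd_eq_psi hL n hv hw hvw ha, o1 n v hv, o2 n w hw]
  have hn0 : (n : ℂ) ≠ 0 := by exact_mod_cast (Nat.one_le_iff_ne_zero.1 hn)
  have hp0 : (2 * (Real.pi : ℂ)) ≠ 0 := by
    exact_mod_cast (mul_pos two_pos Real.pi_pos).ne'
  have hm : m1 n a * m1 n (-a) = (n : ℂ) ^ (a ^ 2) * cexp (-(a ^ 2)) /
      (barnesG (1 + a) * barnesG (1 + -a)) := by
    unfold m1
    rw [div_mul_div_comm]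
    congr 1
    have e1 : (n : ℂ) ^ (a ^ 2) = (n : ℂ) ^ (a ^ 2 / 2) * (n : ℂ) ^ ((-a) ^ 2 / 2) := by
      rw [← Complex.cpow_add _ _ hn0]
      congr 1
      ring
    have e2 : (2 * (Real.pi : ℂ)) ^ (a / 2) * (2 * (Real.pi : ℂ)) ^ (-a / 2) = 1 := by
      rw [← Complex.cpow_add _ _ hp0, show a / 2 + -a / 2 = 0 by ring, Complex.cpow_zero]
    have e3 : cexp (-(a ^ 2)) = cexp (-(n : ℂ) * a) * cexp (-(n : ℂ) * -a) *
        (cexp (-a / 2 - a ^ 2 / 2) * cexp (-(-a) / 2 - (-a) ^ 2 / 2)) := by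
      rw [← Complex.exp_add, ← Complex.exp_add, ← Complex.exp_add]
      congr 1
      ring
    rw [e1, e3]
    linear_combination (cexp (-(n : ℂ) * a) * (n : ℂ) ^ (a ^ 2 / 2) * cexp (-a / 2 - a ^ 2 / 2) *
      (cexp (-(n : ℂ) * -a) * (n : ℂ) ^ ((-a) ^ 2 / 2) * cexp (-(-a) / 2 - (-a) ^ 2 / 2))) * e2
  have hpow : (n : ℂ) ^ (-(a ^ 2)) * (n : ℂ) ^ (a ^ 2) = 1 := by
    rw [← Complex.cpow_add _ _ hn0, neg_add_cancel, Complex.cpow_zero]
  have hexp : cexp (-(a ^ 2)) * cexp (a ^ 2) = 1 := by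
    rw [← Complex.exp_add, neg_add_cancel, Complex.exp_zero]
  have hNa := NN_ne n ha1
  have hNb := NN_ne n ha2
  have hdp : ((d2 v w : ℝ) : ℂ) ^ (a ^ 2) ≠ 0 := by
    rw [Complex.cpow_def_of_ne_zero hd0]
    exact Complex.exp_ne_zero _
  have hna : (n : ℂ) ^ (a ^ 2) ≠ 0 := by
    rw [Complex.cpow_def_of_ne_zero hn0]
    exact Complex.exp_ne_zero _
  have hm0 : m1 n a * m1 n (-a) ≠ 0 := by
    rw [hm]
    exact div_ne_zero (mul_ne_zero hna (Complex.exp_ne_zero _)) (mul_ne_zero g1 g2)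
  have hm1 : m1 n a ≠ 0 := left_ne_zero_of_mul hm0
  have hm2 : m1 n (-a) ≠ 0 := right_ne_zero_of_mul hm0
  rw [show (1 : ℂ) - a = 1 + -a by ring]
  set A := ∏ j ∈ Finset.range n, (Complex.Gamma ((j : ℂ) + 1 + a) * Complex.Gamma ((n : ℂ) + 1) /
      (Complex.Gamma ((j : ℂ) + 1) * Complex.Gamma ((n : ℂ) + 1 + a))) with hA
  set B := ∏ j ∈ Finset.range n, (Complex.Gamma ((j : ℂ) + 1 + -a) * Complex.Gamma ((n : ℂ) + 1) /
      (Complex.Gamma ((j : ℂ) + 1) * Complex.Gamma ((n : ℂ) + 1 + -a))) with hB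
  have hcalc : Psi n r a (-a) / (NN n a * NN n (-a) * ((d2 v w : ℝ) : ℂ) ^ a ^ 2) *
      (NN n a * NN n (-a) * (n : ℂ) ^ (-a ^ 2) * (barnesG (1 + a) * barnesG (1 + -a))) *
      (((d2 v w : ℝ) : ℂ) ^ a ^ 2 * cexp (a ^ 2)) =
      Psi n r a (-a) * (n : ℂ) ^ (-a ^ 2) * (barnesG (1 + a) * barnesG (1 + -a)) *
        cexp (a ^ 2) := by
    field_simp
  have hinv : (n : ℂ) ^ (-a ^ 2) * (barnesG (1 + a) * barnesG (1 + -a)) * cexp (a ^ 2) =
      (m1 n a * m1 n (-a))⁻¹ := by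
    refine eq_inv_of_mul_eq_one_left ?_
    rw [hm]
    have hg := mul_ne_zero g1 g2
    field_simp
    linear_combination (cexp (a ^ 2) * cexp (-(a ^ 2))) * hpow + hexp
  show (Psi n r a (-a) / (NN n a * NN n (-a) * ((d2 v w : ℝ) : ℂ) ^ a ^ 2) *
      (NN n a * NN n (-a) * (n : ℂ) ^ (-a ^ 2) * (barnesG (1 + a) * barnesG (1 + -a))) *
      (((d2 v w : ℝ) : ℂ) ^ a ^ 2 * cexp (a ^ 2))) / (A / m1 n a * (B / m1 n (-a))) =
    Psi n r a (-a) / (A * B)
  rw [hcalc]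
  by_cases hAB : A * B = 0
  · rw [hAB, div_zero, div_mul_div_comm, hAB, zero_div, div_zero]
  · have hA0 := left_ne_zero_of_mul hAB
    have hB0 := right_ne_zero_of_mul hAB
    rw [show Psi n r a (-a) * (n : ℂ) ^ (-a ^ 2) * (barnesG (1 + a) * barnesG (1 + -a)) *
        cexp (a ^ 2) = Psi n r a (-a) * ((n : ℂ) ^ (-a ^ 2) * (barnesG (1 + a) * barnesG (1 + -a)) *
        cexp (a ^ 2)) by ring, hinv]
    field_simp

end

end Pool.Agent.P8H67.FM
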